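import Pool.Agent.Helper73.Dn.Goals

/-!
# Packet DN-DIGW (MP_70814c_an): the expansion along a set of good times
-/

set_option autoImplicit false

open Pool.Agent.Helper17.Rg Pool.Agent.Helper73.Dn

namespace Pool.Agent.Helper7.Dn

/-- the data of `DigW` for the set `G` with maximum `M`, with the value of the whole sum -/
def Dat (g : ℕ) (L x : ℝ) (n M m : ℕ) : Prop :=
    ∃ (l : Fin m → ℕ) (X : Fin m → ℚ) (s : Fin m → ℝ),
      (∀ c, l c ≤ M) ∧ (∀ c, ∃ k : ℤ, X c * (g : ℚ) ^ l c = k) ∧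
      (∀ c, |(X c : ℝ)| ≤ 2 * Real.exp (-s c)) ∧ (∀ c, s c ≤ l c * L) ∧
      (∀ c, 0 ≤ s c) ∧
      (∀ σ : ℝ, σ ≤ M * L →
        |x - ∑ c, (if s c < σ then (X c : ℝ) else 0)| ≤ Real.exp (-σ) / 2) ∧
      (∑ c, (X c : ℝ) = round ((g : ℝ) ^ M * x) / (g : ℝ) ^ M) ∧
      ∑ c, (l c * L - s c) ≤ ((M : ℝ) - n + m) * L + Real.log |x| + 1

theorem pow_exp {g : ℕ} (hg : 2 ≤ g) (k : ℕ) :
    (g : ℝ) ^ k * Real.exp (-(k * Real.log g)) = 1 := by
  have h0 : (0 : ℝ) < g := by positivity
  have h1 : (g : ℝ) ^ k = Real.exp (k * Real.log g) := by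
    rw [Real.exp_nat_mul, Real.exp_log h0]
  rw [h1, ← Real.exp_add]
  simp

theorem near {g : ℕ} (hg : 2 ≤ g) {x : ℝ} {k : ℕ} (h : di ((g : ℝ) ^ k * x) < 1 / 8) :
    |x - round ((g : ℝ) ^ k * x) / (g : ℝ) ^ k| ≤ Real.exp (-(k * Real.log g)) / 8 := by
  have h0 : (0 : ℝ) < g := by positivity
  have hp : (0 : ℝ) < (g : ℝ) ^ k := by positivity
  have h1 := pow_exp hg k
  have h2 : x - round ((g : ℝ) ^ k * x) / (g : ℝ) ^ k =
      ((g : ℝ) ^ k * x - round ((g : ℝ) ^ k * x)) / (g : ℝ) ^ k := by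
    field_simp
  rw [h2, abs_div, abs_of_pos hp, div_le_iff₀ hp]
  unfold di at h
  nlinarith

theorem step_int {g : ℕ} (hg2 : 2 ≤ g) (hg3 : g ≤ 3) {x : ℝ} {k : ℕ}
    (h : di ((g : ℝ) ^ k * x) < 1 / 8) (h' : di ((g : ℝ) ^ (k + 1) * x) < 1 / 8) :
    (round ((g : ℝ) ^ (k + 1) * x) : ℝ) / (g : ℝ) ^ (k + 1) =
      round ((g : ℝ) ^ k * x) / (g : ℝ) ^ k := by
  have h0 : (0 : ℝ) < g := by positivity
  have h3 : (g : ℝ) ≤ 3 := by exact_mod_cast hg3
  unfold di at h h'
  have e : round ((g : ℝ) ^ (k + 1) * x) = (g : ℤ) * round ((g : ℝ) ^ k * x) := by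
    have hh : |((round ((g : ℝ) ^ (k + 1) * x) - (g : ℤ) * round ((g : ℝ) ^ k * x) : ℤ) : ℝ)| < 1 := by
      push_cast
      have e1 : (round ((g : ℝ) ^ (k + 1) * x) : ℝ) - g * round ((g : ℝ) ^ k * x) =
          -((g : ℝ) ^ (k + 1) * x - round ((g : ℝ) ^ (k + 1) * x)) +
          g * ((g : ℝ) ^ k * x - round ((g : ℝ) ^ k * x)) := by
        rw [pow_succ]; ring
      rw [e1]
      calc |(-((g : ℝ) ^ (k + 1) * x - round ((g : ℝ) ^ (k + 1) * x)) +
          g * ((g : ℝ) ^ k * x - round ((g : ℝ) ^ k * x)))| ≤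
          |(-((g : ℝ) ^ (k + 1) * x - round ((g : ℝ) ^ (k + 1) * x)))| +
          |g * ((g : ℝ) ^ k * x - round ((g : ℝ) ^ k * x))| := abs_add_le _ _
        _ = |((g : ℝ) ^ (k + 1) * x - round ((g : ℝ) ^ (k + 1) * x))| +
          g * |((g : ℝ) ^ k * x - round ((g : ℝ) ^ k * x))| := by
            rw [abs_neg, abs_mul, abs_of_pos h0]
        _ < 1 := by nlinarith [abs_nonneg ((g : ℝ) ^ k * x - round ((g : ℝ) ^ k * x))]
    have hh2 : |round ((g : ℝ) ^ (k + 1) * x) - (g : ℤ) * round ((g : ℝ) ^ k * x)| < 1 := by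
      exact_mod_cast hh
    have := Int.abs_lt_one_iff.mp hh2
    linarith
  rw [e]
  push_cast
  rw [pow_succ]
  field_simp

theorem base {g : ℕ} (hg2 : 2 ≤ g) {x : ℝ} {p m : ℕ} (hx : |x| ≤ 1 / 2)
    (h : di ((g : ℝ) ^ p * x) < 1 / 8) (h2 : 1 / 2 ≤ (g : ℝ) ^ p * |x|) :
    Dat g (Real.log g) x 1 p (m + 1) := by
  have h0 : (0 : ℝ) < g := by positivity
  have hp : (0 : ℝ) < (g : ℝ) ^ p := by positivity
  have hxp : 0 < |x| := by
    by_contra hc
    have : |x| = 0 := le_antisymm (not_lt.mp hc) (abs_nonneg x)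
    rw [this] at h2
    norm_num at h2
  have hL : 0 < Real.log g := Real.log_pos (by exact_mod_cast (by omega : 1 < g))
  have hpe := pow_exp hg2 p
  have hn := near hg2 h
  set L := Real.log g with hLdef
  set a : ℤ := round ((g : ℝ) ^ p * x) with ha
  have hexp : Real.exp (-(-Real.log |x| - Real.log 2)) = 2 * |x| := by
    rw [show -(-Real.log |x| - Real.log 2) = Real.log |x| + Real.log 2 by ring, Real.exp_add,
      Real.exp_log hxp, Real.exp_log (by norm_num)]
    ring
  have hE : Real.exp (-(p * L)) ≤ 2 * |x| := by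
    have hEpos := Real.exp_pos (-(p * L))
    have : Real.exp (-(p * L)) * 1 ≤ Real.exp (-(p * L)) * (2 * ((g : ℝ) ^ p * |x|)) := by
      apply mul_le_mul_of_nonneg_left _ hEpos.le
      linarith
    calc Real.exp (-(p * L)) = Real.exp (-(p * L)) * 1 := by ring
      _ ≤ _ := this
      _ = ((g : ℝ) ^ p * Real.exp (-(p * L))) * (2 * |x|) := by ring
      _ = _ := by rw [hpe]; ring
  have hs0 : 0 ≤ -Real.log |x| - Real.log 2 := by
    have : Real.log |x| ≤ Real.log (1 / 2) := Real.log_le_log hxp hx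
    rw [one_div, Real.log_inv] at this
    linarith
  have hsp : -Real.log |x| - Real.log 2 ≤ p * L := by
    have h3 : Real.exp (-(p * L)) ≤ Real.exp (-(-Real.log |x| - Real.log 2)) := by
      rw [hexp]; exact hE
    have := Real.exp_le_exp.mp h3
    linarith
  have hlog2 : Real.log 2 ≤ 1 := by
    have := Real.log_two_lt_d9
    linarith
  have hlog2' : 0 ≤ Real.log 2 := Real.log_nonneg (by norm_num)
  have hm0 : (0 : ℝ) ≤ (m : ℝ) := by positivity
  refine ⟨Fin.cons p (fun _ => 0), Fin.cons ((a : ℚ) / (g : ℚ) ^ p) (fun _ => 0),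
    Fin.cons (-Real.log |x| - Real.log 2) (fun _ => 0), ?_, ?_, ?_, ?_, ?_, ?_, ?_, ?_⟩
  · intro c
    refine Fin.cases ?_ ?_ c
    · simp
    · intro i; simp
  · intro c
    refine Fin.cases ?_ ?_ c
    · refine ⟨a, ?_⟩
      simp only [Fin.cons_zero]
      have : (g : ℚ) ^ p ≠ 0 := by positivity
      field_simp
    · intro i
      exact ⟨0, by simp⟩
  · intro c
    refine Fin.cases ?_ ?_ c
    · simp only [Fin.cons_zero]
      rw [hexp]
      push_cast
      have h5 : |(a : ℝ) / (g : ℝ) ^ p| ≤ |x| + |x - a / (g : ℝ) ^ p| := by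
        have := abs_sub_abs_le_abs_sub ((a : ℝ) / (g : ℝ) ^ p) x
        rw [abs_sub_comm] at this
        linarith
      linarith
    · intro i
      simp
  · intro c
    refine Fin.cases ?_ ?_ c
    · simpa using hsp
    · intro i; simp
  · intro c
    refine Fin.cases ?_ ?_ c
    · simpa using hs0
    · intro i; simp
  · intro σ hσ
    rw [Fin.sum_univ_succ]
    simp only [Fin.cons_zero, Fin.cons_succ]
    have hz : ∑ i : Fin m, (if (0 : ℝ) < σ then (((0 : ℚ)) : ℝ) else 0) = 0 := by simp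
    rw [hz, add_zero]
    by_cases hc : -Real.log |x| - Real.log 2 < σ
    · rw [if_pos hc]
      push_cast
      have : Real.exp (-(p * L)) ≤ Real.exp (-σ) := Real.exp_le_exp.mpr (by linarith)
      have hpos := Real.exp_pos (-σ)
      linarith
    · rw [if_neg hc, sub_zero]
      push Not at hc
      have : Real.exp (-(-Real.log |x| - Real.log 2)) ≤ Real.exp (-σ) :=
        Real.exp_le_exp.mpr (by linarith)
      rw [hexp] at this
      linarith
  · rw [Fin.sum_univ_succ]
    simp [ha]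
  · rw [Fin.sum_univ_succ]
    simp only [Fin.cons_zero, Fin.cons_succ]
    simp only [Nat.cast_zero, zero_mul, sub_zero, Finset.sum_const_zero, add_zero]
    push_cast
    nlinarith

theorem stepA {g : ℕ} (hg2 : 2 ≤ g) (hg3 : g ≤ 3) {x : ℝ} {n p m : ℕ}
    (h : di ((g : ℝ) ^ p * x) < 1 / 8) (h' : di ((g : ℝ) ^ (p + 1) * x) < 1 / 8)
    (hD : Dat g (Real.log g) x n p m) : Dat g (Real.log g) x (n + 1) (p + 1) m := by
  obtain ⟨l, X, s, h1, h2, h3, h4, h5, h6, h7, h8⟩ := hD
  have hL : 0 < Real.log g := Real.log_pos (by exact_mod_cast (by omega : 1 < g))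
  refine ⟨l, X, s, fun c => (h1 c).trans (Nat.le_succ _), h2, h3, h4, h5, ?_, ?_, ?_⟩
  · intro σ hσ
    by_cases hc : σ ≤ p * Real.log g
    · exact h6 σ hc
    · push Not at hc
      have hall : ∑ c, (if s c < σ then (X c : ℝ) else 0) = ∑ c, (X c : ℝ) := by
        apply Finset.sum_congr rfl
        intro c _
        rw [if_pos]
        have e1 := h4 c
        have e2 : (l c : ℝ) * Real.log g ≤ p * Real.log g := by
          apply mul_le_mul_of_nonneg_right _ hL.le
          exact_mod_cast h1 c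
        linarith
      rw [hall, h7, ← step_int hg2 hg3 h h']
      have := near hg2 h'
      have h9 : Real.exp (-(((p + 1 : ℕ) : ℝ) * Real.log g)) ≤ Real.exp (-σ) :=
        Real.exp_le_exp.mpr (by linarith)
      have hpos := Real.exp_pos (-σ)
      linarith
  · rw [h7, step_int hg2 hg3 h h']
  · push_cast
    linarith

theorem stepB {g : ℕ} (hg2 : 2 ≤ g) {x : ℝ} {n p M m : ℕ} (hpM : p < M)
    (h : di ((g : ℝ) ^ p * x) < 1 / 8) (h' : di ((g : ℝ) ^ M * x) < 1 / 8)
    (hD : Dat g (Real.log g) x n p m) : Dat g (Real.log g) x (n + 1) M (m + 1) := by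
  obtain ⟨l, X, s, h1, h2, h3, h4, h5, h6, h7, h8⟩ := hD
  have hL : 0 < Real.log g := Real.log_pos (by exact_mod_cast (by omega : 1 < g))
  have hn := near hg2 h
  have hn' := near hg2 h'
  have hpM' : (p : ℝ) < M := by exact_mod_cast hpM
  have hexp : Real.exp (-(M * Real.log g)) ≤ Real.exp (-(p * Real.log g)) :=
    Real.exp_le_exp.mpr (by nlinarith)
  refine ⟨Fin.cons M l, Fin.cons ((round ((g : ℝ) ^ M * x) : ℚ) / (g : ℚ) ^ M -
    (round ((g : ℝ) ^ p * x) : ℚ) / (g : ℚ) ^ p) X,
    Fin.cons (p * Real.log g) s, ?_, ?_, ?_, ?_, ?_, ?_, ?_, ?_⟩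
  · intro c
    refine Fin.cases ?_ ?_ c
    · simp
    · intro i
      simpa using (h1 i).trans hpM.le
  · intro c
    refine Fin.cases ?_ ?_ c
    · refine ⟨round ((g : ℝ) ^ M * x) - round ((g : ℝ) ^ p * x) * (g : ℤ) ^ (M - p), ?_⟩
      simp only [Fin.cons_zero]
      have e0 : (g : ℚ) ^ M = (g : ℚ) ^ p * (g : ℚ) ^ (M - p) := by
        rw [← pow_add]; congr 1; omega
      have e1 : (g : ℚ) ^ p ≠ 0 := by positivity
      have e2 : (g : ℚ) ^ (M - p) ≠ 0 := by positivity
      push_cast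
      rw [e0]
      field_simp
    · intro i
      simpa using h2 i
  · intro c
    refine Fin.cases ?_ ?_ c
    · simp only [Fin.cons_zero]
      push_cast
      have e1 : |(round ((g : ℝ) ^ M * x) : ℝ) / (g : ℝ) ^ M -
          (round ((g : ℝ) ^ p * x) : ℝ) / (g : ℝ) ^ p| ≤
          |x - (round ((g : ℝ) ^ M * x) : ℝ) / (g : ℝ) ^ M| +
          |x - (round ((g : ℝ) ^ p * x) : ℝ) / (g : ℝ) ^ p| := by
        have := abs_sub_le ((round ((g : ℝ) ^ M * x) : ℝ) / (g : ℝ) ^ M) x
          ((round ((g : ℝ) ^ p * x) : ℝ) / (g : ℝ) ^ p)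
        rw [abs_sub_comm ((round ((g : ℝ) ^ M * x) : ℝ) / (g : ℝ) ^ M) x] at this
        exact this
      have hpos := Real.exp_pos (-(p * Real.log g))
      linarith
    · intro i
      simpa using h3 i
  · intro c
    refine Fin.cases ?_ ?_ c
    · simp only [Fin.cons_zero]
      nlinarith
    · intro i
      simpa using h4 i
  · intro c
    refine Fin.cases ?_ ?_ c
    · simp only [Fin.cons_zero]
      positivity
    · intro i
      simpa using h5 i
  · intro σ hσ
    rw [Fin.sum_univ_succ]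
    simp only [Fin.cons_zero, Fin.cons_succ]
    by_cases hc : σ ≤ p * Real.log g
    · rw [if_neg (not_lt.mpr hc), zero_add]
      exact h6 σ hc
    · push Not at hc
      have hall : ∑ c, (if s c < σ then (X c : ℝ) else 0) = ∑ c, (X c : ℝ) := by
        apply Finset.sum_congr rfl
        intro c _
        rw [if_pos]
        have e1 := h4 c
        have e2 : (l c : ℝ) * Real.log g ≤ p * Real.log g := by
          apply mul_le_mul_of_nonneg_right _ hL.le
          exact_mod_cast h1 c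
        linarith
      rw [hall, h7, if_pos hc]
      push_cast
      rw [sub_add_cancel]
      have h9 : Real.exp (-((M : ℝ) * Real.log g)) ≤ Real.exp (-σ) :=
        Real.exp_le_exp.mpr (by linarith)
      have hpos := Real.exp_pos (-σ)
      linarith
  · rw [Fin.sum_univ_succ]
    simp only [Fin.cons_zero, Fin.cons_succ]
    rw [h7]
    push_cast
    ring
  · rw [Fin.sum_univ_succ]
    simp only [Fin.cons_zero, Fin.cons_succ]
    push_cast
    linarith

theorem ends_A {s : Finset ℕ} {p : ℕ} (hp : p ∈ s) (hs : ∀ k ∈ s, k ≤ p) :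
    (ends s).card ≤ (ends (insert (p + 1) s)).card := by
  have hpe : p ∈ ends s := by
    unfold ends
    rw [Finset.mem_filter]
    exact ⟨hp, fun h => by have := hs _ h; omega⟩
  have h1 : ((ends s).erase p).card + 1 = (ends s).card := Finset.card_erase_add_one hpe
  have h2 : p + 1 ∉ (ends s).erase p := by
    intro h
    have h3 : p + 1 ∈ s := by
      have := Finset.mem_of_mem_erase h
      unfold ends at this
      exact (Finset.mem_filter.mp this).1
    have := hs _ h3
    omega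
  rw [← h1, ← Finset.card_insert_of_notMem h2]
  apply Finset.card_le_card
  intro k hk
  rw [Finset.mem_insert] at hk
  unfold ends
  rw [Finset.mem_filter, Finset.mem_insert, Finset.mem_insert]
  rcases hk with rfl | hk
  · refine ⟨Or.inl rfl, ?_⟩
    rintro (h | h)
    · omega
    · have := hs _ h; omega
  · rw [Finset.mem_erase] at hk
    obtain ⟨hne, hk⟩ := hk
    unfold ends at hk
    rw [Finset.mem_filter] at hk
    refine ⟨Or.inr hk.1, ?_⟩
    rintro (h | h)
    · omega
    · exact hk.2 h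

theorem ends_B {s : Finset ℕ} {p M : ℕ} (hs : ∀ k ∈ s, k ≤ p) (hM : p + 1 < M) :
    (ends s).card + 1 ≤ (ends (insert M s)).card := by
  have h2 : M ∉ ends s := by
    intro h
    unfold ends at h
    have := hs _ (Finset.mem_filter.mp h).1
    omega
  rw [← Finset.card_insert_of_notMem h2]
  apply Finset.card_le_card
  intro k hk
  rw [Finset.mem_insert] at hk
  unfold ends
  rw [Finset.mem_filter, Finset.mem_insert, Finset.mem_insert]
  rcases hk with rfl | hk
  · refine ⟨Or.inl rfl, ?_⟩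
    rintro (h | h)
    · omega
    · have := hs _ h; omega
  · unfold ends at hk
    rw [Finset.mem_filter] at hk
    refine ⟨Or.inr hk.1, ?_⟩
    rintro (h | h)
    · have := hs _ hk.1; omega
    · exact hk.2 h

theorem main {g : ℕ} (hg2 : 2 ≤ g) (hg3 : g ≤ 3) {x : ℝ} (hx : |x| ≤ 1 / 2) (G : Finset ℕ) :
    (∀ k ∈ G, di ((g : ℝ) ^ k * x) < 1 / 8) → (∀ k ∈ G, 1 / 2 ≤ (g : ℝ) ^ k * |x|) →
    ∀ M ∈ G, (∀ k ∈ G, k ≤ M) → ∀ m : ℕ, (ends G).card ≤ m →
      Dat g (Real.log g) x G.card M m := by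
  induction G using Finset.induction_on_max with
  | empty => intro _ _ M hM; simp at hM
  | insert a s hlt ih =>
    intro hd hh M hM hmax m hm
    have hMa : M = a := by
      rcases Finset.mem_insert.mp hM with h | h
      · exact h
      · have h1 := hlt M h
        have h2 := hmax a (Finset.mem_insert_self _ _)
        omega
    subst hMa
    have hns : M ∉ s := fun h => by have := hlt M h; omega
    rw [Finset.card_insert_of_notMem hns]
    rcases s.eq_empty_or_nonempty with rfl | hne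
    · have hm1 : 1 ≤ m := by
        refine le_trans ?_ hm
        rw [Nat.one_le_iff_ne_zero, Finset.card_ne_zero]
        refine ⟨M, ?_⟩
        unfold ends
        simp
      obtain ⟨m', rfl⟩ : ∃ m', m = m' + 1 := ⟨m - 1, by omega⟩
      exact base hg2 hx (hd M (Finset.mem_insert_self _ _)) (hh M (Finset.mem_insert_self _ _))
    · set p := s.max' hne with hp
      have hps : p ∈ s := Finset.max'_mem s hne
      have hpmax : ∀ k ∈ s, k ≤ p := fun k hk => Finset.le_max' s k hk
      have hpM : p < M := hlt p hps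
      have hd' : ∀ k ∈ s, di ((g : ℝ) ^ k * x) < 1 / 8 := fun k hk =>
        hd k (Finset.mem_insert_of_mem hk)
      have hh' : ∀ k ∈ s, 1 / 2 ≤ (g : ℝ) ^ k * |x| := fun k hk =>
        hh k (Finset.mem_insert_of_mem hk)
      have ih' := ih hd' hh' p hps hpmax
      by_cases hc : M = p + 1
      · rw [hc]
        apply stepA hg2 hg3 (hd' p hps)
        · rw [← hc]; exact hd M (Finset.mem_insert_self _ _)
        · apply ih'
          refine le_trans ?_ hm
          rw [hc]
          exact ends_A hps hpmax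
      · have hc' : p + 1 < M := by omega
        have h1 := ends_B hpmax hc'
        obtain ⟨m', rfl⟩ : ∃ m', m = m' + 1 := ⟨m - 1, by omega⟩
        exact stepB hg2 hpM (hd' p hps) (hd M (Finset.mem_insert_self _ _)) (ih' m' (by omega))

theorem digW : DigW := by
  intro b m x G hG hm hx hd hh
  have hg2 : 2 ≤ gb b := by unfold gb; split_ifs <;> norm_num
  have hg3 : gb b ≤ 3 := by unfold gb; split_ifs <;> norm_num
  obtain ⟨l, X, s, h1, h2, h3, h4, h5, h6, h7, h8⟩ :=
    main hg2 hg3 hx G hd hh (G.max' hG) (Finset.max'_mem _ _)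
      (fun k hk => Finset.le_max' G k hk) m hm
  exact ⟨l, X, s, h1, h2, h3, h4, h5, h6, h8⟩

end Pool.Agent.Helper7.Dn
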